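import Pool.Agent.V8H89.FD.C10

/-!
# Free product decompositions in the genus of a noncocompact Fuchsian group with torsion

Let `Γ` be the free product of finitely many groups `G j`, each of them finite or infinite cyclic, at
least one of them finite and nontrivial. The noncocompact lattices with torsion in `PSL (2, ℝ)` are of
this kind (with all `G j` cyclic), for example `PSL (2, ℤ)` and all triangle groups of signature
`(p, q, ∞)`; the torsion free case is `FreeDecompositions`. Let `Λ` be a finitely generated group with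
the same finite quotients as `Γ`.

* If `Λ` is the free product of groups `A i` (no hypothesis on the factors), there is a map `τ` from
  the factors of `Γ` to those of `Λ` such that for each `i` the group `A i` has as many homomorphisms
  to `Q` as the free product of the `G j` with `τ j = i`, and both have the quotient `Q` or both do
  not, for every finite solvable group `Q`, and for every finite group `Q` if at most one of the
  `G j` with `τ j = i` is infinite, or if this is so for each `i' ≠ i`.
* If moreover `Λ` is residually finite and the `A i` are nontrivial, then `τ` is surjective, `A i` is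
  isomorphic to `G j` if `j` is the only index with `τ j = i`, there are at most as many factors
  `A i` as factors `G j`, and `Λ` is isomorphic to `Γ` in case of equality.
* If at most three of the `G j` are infinite, then `Γ` is profinitely rigid if no finitely generated
  residually finite group with the same finite quotients as a free product of at least two of the
  `G j` is freely indecomposable.
-/

namespace Pool.Agent.Results.MP_305fdd_al.CyclicAndFiniteFactors

open Function Monoid Pool.Agent.V8H89.FD

/-- The two groups have the same finite quotients. -/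
def SameFiniteQuotients (Λ Γ : Type) [Group Λ] [Group Γ] : Prop :=
  ∀ (Q : Type) [Group Q] [Finite Q],
    (∃ φ : Λ →* Q, Surjective φ) ↔ (∃ φ : Γ →* Q, Surjective φ)

/-- Nontrivial elements survive in finite quotients. -/
def ResiduallyFinite (Λ : Type) [Group Λ] : Prop :=
  ∀ x : Λ, x ≠ 1 → ∃ (Q : Type) (_ : Group Q) (_ : Finite Q) (φ : Λ →* Q), φ x ≠ 1

/-- At most one of the groups `G j` with `τ j = i` is infinite. -/
def AtMostOneInfinite {κ ι : Type} (G : κ → Type) (τ : κ → ι) (i : ι) : Prop :=
  ∀ j j', τ j = i → τ j' = i → Infinite (G j) → Infinite (G j') → j = j'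

theorem result {κ : Type} [Fintype κ] (G : κ → Type) [∀ j, Group (G j)]
    (hG : ∀ j, Finite (G j) ∨ Nonempty (G j ≃* Multiplicative ℤ))
    (_ht : ∃ j, Finite (G j) ∧ Nontrivial (G j)) :
    (∀ (ι : Type) [Fintype ι] [Nonempty ι] (A : ι → Type) [∀ i, Group (A i)] (Λ : Type) [Group Λ],
      Group.FG Λ → SameFiniteQuotients Λ (CoprodI G) → Λ ≃* CoprodI A →
      ∃ τ : κ → ι,
        (∀ (i : ι) (Q : Type) [Group Q] [Finite Q],
          (Group.IsSolvable Q ∨ AtMostOneInfinite G τ i ∨
            ∀ i', i' ≠ i → AtMostOneInfinite G τ i') →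
          Nat.card (A i →* Q) = Nat.card (CoprodI (fun j : {j // τ j = i} => G j) →* Q) ∧
          ((∃ φ : A i →* Q, Surjective φ) ↔
            (∃ φ : CoprodI (fun j : {j // τ j = i} => G j) →* Q, Surjective φ))) ∧
        ((∀ i, Nontrivial (A i)) → ResiduallyFinite Λ →
          Surjective τ ∧
          (∀ i j, τ j = i → (∀ j', τ j' = i → j' = j) → Nonempty (A i ≃* G j)) ∧
          Fintype.card ι ≤ Fintype.card κ ∧
          (Fintype.card ι = Fintype.card κ → Nonempty (Λ ≃* CoprodI G)))) ∧
    (Nat.card {j // Infinite (G j)} ≤ 3 →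
      (∀ S : Finset κ, 2 ≤ S.card → ∀ (B : Type) [Group B], Group.FG B → ResiduallyFinite B →
        SameFiniteQuotients B (CoprodI fun j : S => G j) →
        ∃ (C D : Type) (_ : Group C) (_ : Group D), Nontrivial C ∧ Nontrivial D ∧
          Nonempty (B ≃* Coprod C D)) →
      ∀ (Λ : Type) [Group Λ], Group.FG Λ → ResiduallyFinite Λ →
        SameFiniteQuotients Λ (CoprodI G) → Nonempty (Λ ≃* CoprodI G)) := by
  classical
  have hqle : ∀ (B C : Type) [Group B] [Group C], SameFiniteQuotients B C → QLe B C ∧ QLe C B :=
    fun B C _ _ h => ⟨fun Q _ _ => (h Q).1, fun Q _ _ => (h Q).2⟩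
  have hqle' : ∀ (B C : Type) [Group B] [Group C], QLe B C → QLe C B → SameFiniteQuotients B C :=
    fun B C _ _ h h' Q _ _ => ⟨h Q, h' Q⟩
  have hfew : ∀ {ι : Type} (τ : κ → ι) i, AtMostOneInfinite G τ i ↔ Few G τ i := by
    intro ι τ i
    simp only [AtMostOneInfinite, Few, not_finite_iff_infinite]
  refine ⟨?_, ?_⟩
  · intro ι _ _ A _ Λ _ hΛ hq e
    obtain ⟨h1, h2⟩ := hqle _ _ hq
    have hfg : Group.FG (CoprodI A) := Group.fg_of_surjective (f := e.toMonoidHom) e.surjective
    obtain ⟨τ, hτ⟩ := main_mixed' hG hfg ((QLe.of_equiv e.symm).trans h1)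
      (h2.trans (QLe.of_equiv e))
    refine ⟨τ, fun i Q _ _ hQ => ?_, fun hnt hrf => ?_⟩
    · simp only [hfew] at hQ
      refine ⟨hτ i Q hQ, ?_⟩
      refine sur_iff (fg_factor A hfg i) (fg_gamma (G := fun j : {j // τ j = i} => G j)
        fun j => hG j) Q fun H => ?_
      refine hτ i H ?_
      rcases hQ with hQ | hQ
      · exact Or.inl inferInstance
      · exact Or.inr hQ
    · have hrf' : RF Λ := hrf
      obtain ⟨h3, h4, h5⟩ := mixed_rf hG hfg (hrf'.of_inj e.symm.toMonoidHom e.symm.injective) hnt
        τ (fun i hi Q _ _ => hτ i Q (Or.inr (Or.inl hi)))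
      exact ⟨h3, h4, Fintype.card_le_of_surjective τ h3, fun hc => ⟨e.trans (h5 hc).some⟩⟩
  · intro h3 H Λ _ hΛ hrf hq
    obtain ⟨h1, h2⟩ := hqle _ _ hq
    have h3' : Fintype.card {j // ¬ Finite (G j)} ≤ 3 := by
      rw [← Nat.card_eq_fintype_card]
      simpa only [not_finite_iff_infinite] using h3
    refine rigid_mixed _ κ G hG rfl h3' ?_ Λ hΛ hrf h1 h2
    intro κ' _ f hf hc B _ hB hBrf h4 h5
    let S : Finset κ := Finset.univ.map ⟨f, hf⟩
    have hS : 2 ≤ S.card := by
      rw [Finset.card_map]
      exact hc
    have hmem : ∀ x : κ', f x ∈ S := fun x => Finset.mem_map.2 ⟨x, Finset.mem_univ x, rfl⟩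
    let E : κ' ≃ S := Equiv.ofBijective (fun x => ⟨f x, hmem x⟩)
      ⟨fun x y h => hf (Subtype.mk.inj h), fun ⟨y, hy⟩ => by
        obtain ⟨x, _, hx⟩ := Finset.mem_map.1 hy
        exact ⟨x, Subtype.ext hx⟩⟩
    obtain ⟨e⟩ := coprod_equiv (G := fun j : S => G j) (B := fun x => G (f x)) E
      (fun x => MulEquiv.refl _)
    exact H S hS B hB hBrf (hqle' _ _ (h4.trans (QLe.of_equiv e)) ((QLe.of_equiv e.symm).trans h5))

end Pool.Agent.Results.MP_305fdd_al.CyclicAndFiniteFactors
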