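import Pool.Agent.V8H72.TA.D1

/-!
# Cyclic subgroups in the genus of a Fuchsian group

Let `Γ` be a finitely generated group with a normal subgroup `F` of finite index which is free or a
surface group of genus at least two (all lattices in `PSL (2, ℝ)` are of this kind), and let `Λ` be a
finitely generated residually finite group with the same finite quotients. Then every cyclic
subgroup of `Λ`, finite or infinite, is a virtual retract of `Λ`, and centralizers of elements of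
infinite order are virtually cyclic.
-/

namespace Pool.Agent.Results.MP_305fdd_al.CyclicRetracts

open Pool.Agent.V8H72.TA

theorem result (Γ Λ : Type) [Group Γ] [Group Λ] (hΓ : Group.FG Γ) (hΛ : Group.FG Λ)
    (hrf : ∀ x : Λ, x ≠ 1 → ∃ (Q : Type) (_ : Group Q) (_ : Finite Q) (φ : Λ →* Q), φ x ≠ 1)
    (hq : ∀ (Q : Type) [Group Q] [Finite Q],
      (∃ φ : Λ →* Q, Function.Surjective φ) ↔ (∃ φ : Γ →* Q, Function.Surjective φ))
    (F : Subgroup Γ) [F.Normal] (hF : F.FiniteIndex)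
    (hfree : IsFreeGroup F ∨ ∃ g : ℕ, 2 ≤ g ∧
      Nonempty (F ≃* PresentedGroup ({(List.ofFn fun i : Fin g =>
        FreeGroup.of (i, (0 : Fin 2)) * FreeGroup.of (i, (1 : Fin 2)) *
          (FreeGroup.of (i, (0 : Fin 2)))⁻¹ * (FreeGroup.of (i, (1 : Fin 2)))⁻¹).prod} :
        Set (FreeGroup (Fin g × Fin 2))))) :
    (∀ x : Λ, ∃ (V : Subgroup Λ) (_ : V.FiniteIndex) (hx : x ∈ V) (r : V →* Λ),
      (∀ v : V, r v ∈ Subgroup.zpowers x) ∧ r ⟨x, hx⟩ = x) ∧
    ∃ (L : Subgroup Λ) (_ : L.Normal), Nonempty (Λ ⧸ L ≃* Γ ⧸ F) ∧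
      (∀ x ∈ L, IsOfFinOrder x → x = 1) ∧
      ∀ x : Λ, ¬ IsOfFinOrder x → IsCyclic ↥(Subgroup.centralizer ({x} : Set Λ) ⊓ L) := by
  obtain ⟨L, hL, he, hL0, hG⟩ : ∃ (L : Subgroup Λ) (_ : L.Normal),
      Nonempty (Λ ⧸ L ≃* Γ ⧸ F) ∧ L.index ≠ 0 ∧ Good L := by
    rcases hfree with hfree | ⟨g, hg, ⟨e⟩⟩
    · obtain ⟨L, hL, he, hL0, hG, -⟩ := main_free Γ Λ hΓ hΛ hrf hq F hF hfree
      exact ⟨L, hL, he, hL0, hG⟩
    · obtain ⟨L, hL, he, hL0, hG, -⟩ := main_surface Γ Λ hΓ hΛ hrf hq F hF g hg e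
      exact ⟨L, hL, he, hL0, hG⟩
  have htf : ∀ x ∈ L, IsOfFinOrder x → x = 1 := by
    intro x hx hfo
    by_contra hx1
    obtain ⟨V, hV, hxV, χ, hχ⟩ := vr_sub hL0 hG x hx hx1
    obtain ⟨n, hn, hxn⟩ := isOfFinOrder_iff_pow_eq_one.1 hfo
    have h1 : χ ⟨x, hxV⟩ ^ n = 1 := by
      rw [← map_pow]
      have : (⟨x, hxV⟩ : V) ^ n = 1 := Subtype.ext hxn
      rw [this, map_one]
    rw [hχ] at h1
    have h2 := congrArg Multiplicative.toAdd h1
    rw [toAdd_pow, toAdd_ofAdd, toAdd_one, nsmul_eq_mul, mul_one] at h2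
    omega
  refine ⟨fun x => ?_, L, hL, he, htf, ?_⟩
  · obtain ⟨V, hV, r, hxV, h1, h2⟩ := vrc hrf hL0 hG x
    exact ⟨V, hV, hxV, r, h1, h2⟩
  · intro x hx
    have hxL : x ^ L.index ∈ L := Subgroup.pow_index_mem L x
    have hx1 : x ^ L.index ≠ 1 := fun h =>
      hx (isOfFinOrder_iff_pow_eq_one.2 ⟨_, Nat.pos_of_ne_zero hL0, h⟩)
    have hc := cent_sub hG _ hxL hx1
    have hle : Subgroup.centralizer ({x} : Set Λ) ⊓ L ≤
        Subgroup.centralizer ({x ^ L.index} : Set Λ) ⊓ L := by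
      rintro y ⟨hy, hyL⟩
      refine ⟨?_, hyL⟩
      have h3 : Commute y x := Subgroup.mem_centralizer_singleton_iff.1 hy
      exact Subgroup.mem_centralizer_singleton_iff.2 (h3.pow_right _)
    exact isCyclic_of_injective (Subgroup.inclusion hle) (Subgroup.inclusion_injective hle)

end Pool.Agent.Results.MP_305fdd_al.CyclicRetracts
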