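import Pool.Agent.V8H89.FD.C10

/-!
# Free product decompositions in the genus of a free group

Let `Λ` be a finitely generated group with the same finite quotients as the free group `F` of rank
`n`, and suppose `Λ` is the free product of finitely many groups `A i` (no hypothesis is made on
the factors). Then there are ranks `k i` with sum `n` such that the abelianization of `A i` is free
abelian of rank `k i`, and:

* homomorphisms from `A i` to a finite group lift along every surjection `π` of finite groups, and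
  every homomorphism has exactly as many lifts as there are homomorphisms `A i → ker π`;
* for solvable finite `G`, and for all finite `G` if `k i ≤ 1`, the number of homomorphisms from
  `A i` to `G` is `|G| ^ k i`, and `G` is a quotient of `A i` if and only if it is generated by
  `k i` elements;
* factors with `k i ≤ 1` can be cancelled: if every factor outside `s` has `k i ≤ 1`, the free
  product of the factors in `s` has the same finite quotients as a free group;
* if all factors with `k i ≥ 2` have the same finite quotients, then every `A i` has the same finite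
  quotients as the free group of rank `k i`;
* if `Λ` is residually finite and the factors are nontrivial, then every `k i` is positive, factors
  with `k i = 1` are infinite cyclic, there are at most `n` factors, at least `2 |ι| - n` of them are
  infinite cyclic, and `Λ` is free of rank `n` if there are `n` factors.

For `n ≤ 3` it follows that the free group of rank `n` is profinitely rigid if, for `2 ≤ m ≤ n`, no
finitely generated residually finite group with the same finite quotients as the free group of rank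
`m` is freely indecomposable.
-/

namespace Pool.Agent.Results.MP_305fdd_al.FreeDecompositions

open Function Pool.Agent.V8H89.FD

/-- The first part of the theorem. -/
theorem decomp {ι : Type} [Fintype ι] (A : ι → Type) [∀ i, Group (A i)] (Λ : Type) [Group Λ]
    (hΛ : Group.FG Λ) (n : ℕ)
    (hq : ∀ (Q : Type) [Group Q] [Finite Q], (∃ φ : Λ →* Q, Surjective φ) ↔
      (∃ φ : FreeGroup (Fin n) →* Q, Surjective φ))
    (e : Λ ≃* Monoid.CoprodI A) :
    ∃ k : ι → ℕ, ∑ i, k i = n ∧
      (∀ i, Nonempty (Abelianization (A i) ≃* Abelianization (FreeGroup (Fin (k i))))) ∧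
      (∀ (i : ι) (G H : Type) [Group G] [Group H] [Finite G] (π : G →* H), Surjective π →
        ∀ φ : A i →* H, (∃ f : A i →* G, π.comp f = φ) ∧
          Nat.card {f : A i →* G // π.comp f = φ} = Nat.card (A i →* π.ker)) ∧
      (∀ (i : ι) (G : Type) [Group G] [Finite G], (Group.IsSolvable G ∨ k i ≤ 1) →
        Nat.card (A i →* G) = Nat.card G ^ k i ∧
          ((∃ φ : A i →* G, Surjective φ) ↔ (∃ φ : FreeGroup (Fin (k i)) →* G, Surjective φ))) ∧
      (∀ s : Finset ι, (∀ i, i ∉ s → k i ≤ 1) → ∀ (Q : Type) [Group Q] [Finite Q],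
        (∃ φ : Monoid.CoprodI (fun i : s => A i) →* Q, Surjective φ) ↔
          (∃ φ : FreeGroup (Fin (∑ i ∈ s, k i)) →* Q, Surjective φ)) ∧
      ((∀ i j, 2 ≤ k i → 2 ≤ k j → ∀ (Q : Type) [Group Q] [Finite Q],
          (∃ φ : A i →* Q, Surjective φ) ↔ (∃ φ : A j →* Q, Surjective φ)) →
        ∀ (i : ι) (Q : Type) [Group Q] [Finite Q], (∃ φ : A i →* Q, Surjective φ) ↔
          (∃ φ : FreeGroup (Fin (k i)) →* Q, Surjective φ)) ∧
      ((∀ i, Nontrivial (A i)) →
        (∀ x : Λ, x ≠ 1 → ∃ (Q : Type) (_ : Group Q) (_ : Finite Q) (φ : Λ →* Q), φ x ≠ 1) →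
        (∀ i, 1 ≤ k i) ∧ (∀ i, k i = 1 → Nonempty (A i ≃* Multiplicative ℤ)) ∧
          Fintype.card ι ≤ n ∧
          2 * Fintype.card ι ≤ n + Nat.card {i // Nonempty (A i ≃* Multiplicative ℤ)} ∧
          (Fintype.card ι = n → Nonempty (Λ ≃* FreeGroup (Fin n)))) := by
  classical
  have h : Group.FG (Monoid.CoprodI A) := Group.fg_of_surjective (f := e.toMonoidHom) e.surjective
  have h1 : QLe (Monoid.CoprodI A) (FreeGroup (Fin n)) := by
    rintro Q _ _ ⟨φ, hφ⟩
    exact (hq Q).1 ⟨φ.comp e.toMonoidHom, hφ.comp e.surjective⟩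
  have h2 : QLe (FreeGroup (Fin n)) (Monoid.CoprodI A) := by
    rintro Q _ _ hφ
    obtain ⟨φ, hφ⟩ := (hq Q).2 hφ
    exact ⟨φ.comp e.symm.toMonoidHom, hφ.comp e.symm.surjective⟩
  have hA := fun i => fg_factor A h i
  have hU := fun i => ul_factor A h h1 h2 i
  have hF : ∀ m, Group.FG (FreeGroup (Fin m)) := fun m => inferInstance
  obtain ⟨k, hs, hk⟩ := exists_rank h h1 h2
  have h4 : ∀ (i : ι) (G : Type) [Group G] [Finite G], (Group.IsSolvable G ∨ k i ≤ 1) →
      Nat.card (A i →* G) = Nat.card G ^ k i := by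
    rintro i G _ _ (hG | hG)
    · exact ul_solv (hA i) (hU i) (hk i) _ G hG rfl
    · exact small_counts h h1 h2 hk i hG G
  have h4' : ∀ (i : ι) (G : Type) [Group G] [Finite G], (Group.IsSolvable G ∨ k i ≤ 1) →
      ((∃ φ : A i →* G, Surjective φ) ↔ (∃ φ : FreeGroup (Fin (k i)) →* G, Surjective φ)) := by
    intro i G _ _ hG
    refine sur_iff (hA i) (hF _) G fun H => ?_
    rw [hom_free]
    refine h4 i H ?_
    rcases hG with hG | hG
    · exact Or.inl inferInstance
    · exact Or.inr hG
  refine ⟨k, hs, ?_, ?_, ?_, ?_, ?_, ?_⟩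
  · intro i
    obtain ⟨E⟩ := hk i
    let F : Additive (Abelianization (A i)) ≃+ Additive (Abelianization (FreeGroup (Fin (k i)))) :=
      E.trans (FreeAbelianGroup.equivFinsupp (Fin (k i))).symm
    exact ⟨MulEquiv.toAdditive.symm F⟩
  · intro i G H _ _ _ π hπ φ
    have : Finite H := Finite.of_surjective _ hπ
    have h5 := hU i G H π hπ φ
    refine ⟨?_, h5⟩
    have := finite_hom (G := π.ker) (hA i)
    have h6 : 0 < Nat.card {f : A i →* G // π.comp f = φ} := h5 ▸ Nat.card_pos
    obtain ⟨⟨f, hf⟩⟩ := (Nat.card_pos_iff.1 h6).1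
    exact ⟨f, hf⟩
  · exact fun i G _ _ hG => ⟨h4 i G hG, h4' i G hG⟩
  · intro s hi Q _ _
    have hfg : Group.FG (Monoid.CoprodI (fun i : s => A i)) := by
      let r : Monoid.CoprodI A →* Monoid.CoprodI (fun i : s => A i) :=
        Monoid.CoprodI.lift fun i => if hi : i ∈ s then
          (Monoid.CoprodI.of (M := fun i : s => A i) (i := ⟨i, hi⟩) : A i →* _) else 1
      refine Group.fg_of_surjective (f := r) ?_
      rw [← MonoidHom.range_eq_top, eq_top_iff]
      intro x _
      induction x using Monoid.CoprodI.induction_on with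
      | one => exact one_mem _
      | of i a =>
        refine ⟨Monoid.CoprodI.of (i := i.1) a, ?_⟩
        simp only [r, Monoid.CoprodI.lift_of]
        rw [dif_pos i.2]
      | mul x y hx hy => exact mul_mem (hx trivial) (hy trivial)
    refine sur_iff hfg (hF _) Q fun H => ?_
    rw [hom_free, hom_coprod, ← subset_counts h h1 h2 hk hs s hi H]
    exact Finset.prod_coe_sort s fun i => Nat.card (A i →* H)
  · intro hsame i Q _ _
    by_cases hki : k i ≤ 1
    · exact h4' i Q (Or.inr hki)
    refine sur_iff (hA i) (hF _) Q fun H => ?_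
    rw [hom_free]
    have hcount : ∀ j, 2 ≤ k j → ∀ (G : Type) [Group G] [Finite G],
        Nat.card (A j →* G) = Nat.card (A i →* G) := by
      intro j hj G _ _
      refine le_antisymm (card_hom_le (hA j) (hA i) ?_) (card_hom_le (hA i) (hA j) ?_)
      · intro Q _ _ hQ
        exact (hsame j i hj (by omega) Q).1 hQ
      · intro Q _ _ hQ
        exact (hsame j i hj (by omega) Q).2 hQ
    have hkk : ∀ j, 2 ≤ k j → k j = k i := by
      intro j hj
      have e3 : Nat.card (Multiplicative (ZMod 2)) = 2 := by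
        simp [Nat.card_eq_fintype_card]
      have e4 := hcount j hj (Multiplicative (ZMod 2))
      rw [hom_comm (hk j), hom_comm (hk i), e3] at e4
      exact Nat.pow_right_injective le_rfl e4
    let s : Finset ι := Finset.univ.filter fun j => 2 ≤ k j
    have hsi : i ∈ s := Finset.mem_filter.2 ⟨Finset.mem_univ _, by omega⟩
    have e1 := subset_counts h h1 h2 hk hs s (fun j hj => by
      by_contra h0
      exact hj (Finset.mem_filter.2 ⟨Finset.mem_univ _, by omega⟩)) H
    rw [Finset.prod_congr rfl fun j hj => hcount j (Finset.mem_filter.1 hj).2 H,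
      Finset.sum_congr rfl fun j hj => hkk j (Finset.mem_filter.1 hj).2, Finset.prod_const,
      Finset.sum_const, smul_eq_mul, mul_comm s.card, pow_mul] at e1
    exact Nat.pow_left_injective (Finset.card_pos.2 ⟨i, hsi⟩).ne' e1
  · intro hnt hrf
    have hrf' : ∀ (i : ι) (x : A i), x ≠ 1 →
        ∃ (Q : Type) (_ : Group Q) (_ : Finite Q) (φ : A i →* Q), φ x ≠ 1 := by
      intro i x hx
      obtain ⟨Q, _, _, φ, hφ⟩ := hrf (e.symm (Monoid.CoprodI.of x)) (by
        intro h0
        rw [EmbeddingLike.map_eq_one_iff] at h0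
        exact hx ((Monoid.CoprodI.of_injective i) (h0.trans (map_one _).symm)))
      exact ⟨Q, inferInstance, inferInstance,
        (φ.comp e.symm.toMonoidHom).comp Monoid.CoprodI.of, hφ⟩
    have hpos : ∀ i, 1 ≤ k i := by
      intro i
      by_contra h0
      have h0 : k i = 0 := by omega
      obtain ⟨x, hx⟩ := exists_ne (1 : A i)
      obtain ⟨Q, _, _, φ, hφ⟩ := hrf' i x hx
      have h5 := h4 i Q (Or.inr (by omega))
      rw [h0, pow_zero, Nat.card_eq_one_iff_unique] at h5
      obtain ⟨h5, _⟩ := h5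
      exact hφ (DFunLike.congr_fun (Subsingleton.elim φ 1) x)
    have hint : ∀ i, k i = 1 → Nonempty (A i ≃* Multiplicative ℤ) := by
      intro i hi
      have hki := hk i
      rw [hi] at hki
      refine comm_int (fun a b => ?_) hki
      by_contra hab
      have hc : (a * b) * (b * a)⁻¹ ≠ 1 := fun h0 => hab (mul_inv_eq_one.1 h0)
      obtain ⟨Q, _, _, φ, hφ⟩ := hrf' i _ hc
      have h5 := (h4' i φ.range (Or.inr hi.le)).1 ⟨φ.rangeRestrict, φ.rangeRestrict_surjective⟩
      rw [hi] at h5
      obtain ⟨ψ, hψ⟩ := h5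
      refine hφ ?_
      have h6 := congrArg Subtype.val (free_one_comm ψ hψ (φ.rangeRestrict a) (φ.rangeRestrict b))
      have h7 : φ a * φ b = φ b * φ a := h6
      rw [map_mul, map_inv, map_mul, map_mul, h7, mul_inv_cancel]
    have hle : Fintype.card ι ≤ n := by
      rw [← hs, ← Finset.card_univ, Finset.card_eq_sum_ones]
      exact Finset.sum_le_sum fun i _ => hpos i
    refine ⟨hpos, hint, hle, ?_, fun hn => ?_⟩
    · have h5 : Nat.card {i // k i = 1} ≤ Nat.card {i // Nonempty (A i ≃* Multiplicative ℤ)} :=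
        Nat.card_le_card_of_injective (fun i => ⟨i.1, hint i.1 i.2⟩) fun i j hij =>
          Subtype.ext (Subtype.mk.inj hij)
      refine le_trans ?_ (Nat.add_le_add_left h5 n)
      rw [Nat.card_eq_fintype_card, Fintype.card_subtype, Finset.card_filter, ← hs,
        ← Finset.sum_add_distrib, mul_comm, ← Finset.card_univ, ← smul_eq_mul, ← Finset.sum_const]
      refine Finset.sum_le_sum fun i _ => ?_
      have := hpos i
      split_ifs <;> omega
    · have h5 : ∀ i, k i = 1 := by
        have h6 : ∑ i : ι, 1 = ∑ i, k i := by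
          rw [hs, ← hn, ← Finset.card_univ, Finset.card_eq_sum_ones]
        intro i
        exact ((Finset.sum_eq_sum_iff_of_le fun i _ => hpos i).1 h6 i (Finset.mem_univ i)).symm
      obtain ⟨u⟩ := freeUnit
      exact ⟨((e.trans (coprodCongr fun i => (hint i (h5 i)).some.trans u.symm)).trans
        freeGroupEquivCoprodI.symm).trans
          (FreeGroup.freeGroupCongr (Fintype.equivFinOfCardEq hn))⟩


theorem result (n : ℕ) :
    (∀ (ι : Type) [Fintype ι] (A : ι → Type) [∀ i, Group (A i)] (Λ : Type) [Group Λ],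
      Group.FG Λ →
      (∀ (Q : Type) [Group Q] [Finite Q], (∃ φ : Λ →* Q, Surjective φ) ↔
        (∃ φ : FreeGroup (Fin n) →* Q, Surjective φ)) →
      Λ ≃* Monoid.CoprodI A →
      ∃ k : ι → ℕ, ∑ i, k i = n ∧
        (∀ i, Nonempty (Abelianization (A i) ≃* Abelianization (FreeGroup (Fin (k i))))) ∧
        (∀ (i : ι) (G H : Type) [Group G] [Group H] [Finite G] (π : G →* H), Surjective π →
          ∀ φ : A i →* H, (∃ f : A i →* G, π.comp f = φ) ∧
            Nat.card {f : A i →* G // π.comp f = φ} = Nat.card (A i →* π.ker)) ∧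
        (∀ (i : ι) (G : Type) [Group G] [Finite G], (Group.IsSolvable G ∨ k i ≤ 1) →
          Nat.card (A i →* G) = Nat.card G ^ k i ∧
            ((∃ φ : A i →* G, Surjective φ) ↔ (∃ φ : FreeGroup (Fin (k i)) →* G, Surjective φ))) ∧
        (∀ s : Finset ι, (∀ i, i ∉ s → k i ≤ 1) → ∀ (Q : Type) [Group Q] [Finite Q],
          (∃ φ : Monoid.CoprodI (fun i : s => A i) →* Q, Surjective φ) ↔
            (∃ φ : FreeGroup (Fin (∑ i ∈ s, k i)) →* Q, Surjective φ)) ∧
        ((∀ i j, 2 ≤ k i → 2 ≤ k j → ∀ (Q : Type) [Group Q] [Finite Q],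
            (∃ φ : A i →* Q, Surjective φ) ↔ (∃ φ : A j →* Q, Surjective φ)) →
          ∀ (i : ι) (Q : Type) [Group Q] [Finite Q], (∃ φ : A i →* Q, Surjective φ) ↔
            (∃ φ : FreeGroup (Fin (k i)) →* Q, Surjective φ)) ∧
        ((∀ i, Nontrivial (A i)) →
          (∀ x : Λ, x ≠ 1 → ∃ (Q : Type) (_ : Group Q) (_ : Finite Q) (φ : Λ →* Q), φ x ≠ 1) →
          (∀ i, 1 ≤ k i) ∧ (∀ i, k i = 1 → Nonempty (A i ≃* Multiplicative ℤ)) ∧
            Fintype.card ι ≤ n ∧
            2 * Fintype.card ι ≤ n + Nat.card {i // Nonempty (A i ≃* Multiplicative ℤ)} ∧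
            (Fintype.card ι = n → Nonempty (Λ ≃* FreeGroup (Fin n))))) ∧
    (n ≤ 3 →
      (∀ m, 2 ≤ m → m ≤ n → ∀ (B : Type) [Group B], Group.FG B →
        (∀ x : B, x ≠ 1 → ∃ (Q : Type) (_ : Group Q) (_ : Finite Q) (φ : B →* Q), φ x ≠ 1) →
        (∀ (Q : Type) [Group Q] [Finite Q], (∃ φ : B →* Q, Surjective φ) ↔
          (∃ φ : FreeGroup (Fin m) →* Q, Surjective φ)) →
        ∃ (C D : Type) (_ : Group C) (_ : Group D), Nontrivial C ∧ Nontrivial D ∧
          Nonempty (B ≃* Monoid.Coprod C D)) →
      ∀ (Λ : Type) [Group Λ], Group.FG Λ →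
        (∀ x : Λ, x ≠ 1 → ∃ (Q : Type) (_ : Group Q) (_ : Finite Q) (φ : Λ →* Q), φ x ≠ 1) →
        (∀ (Q : Type) [Group Q] [Finite Q], (∃ φ : Λ →* Q, Surjective φ) ↔
          (∃ φ : FreeGroup (Fin n) →* Q, Surjective φ)) →
        Nonempty (Λ ≃* FreeGroup (Fin n))) := by
  classical
  refine ⟨fun ι _ A _ Λ _ hΛ hq e => decomp A Λ hΛ n hq e, ?_⟩
  intro hn H Λ _ hΛ hrf hq
  obtain ⟨u⟩ := freeUnit
  have hfree : ∀ (κ : Type) [Fintype κ],
      Nonempty (Monoid.CoprodI (fun _ : κ => Multiplicative ℤ) ≃*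
        FreeGroup (Fin (Fintype.card κ))) := fun κ _ =>
    ⟨((coprodCongr fun _ => u.symm).trans freeGroupEquivCoprodI.symm).trans
      (FreeGroup.freeGroupCongr (Fintype.equivFin κ))⟩
  have hfn : Nonempty (Monoid.CoprodI (fun _ : Fin n => Multiplicative ℤ) ≃*
      FreeGroup (Fin n)) :=
    ⟨(coprodCongr fun _ => u.symm).trans freeGroupEquivCoprodI.symm⟩
  obtain ⟨en⟩ := hfn
  have h1 : QLe Λ (FreeGroup (Fin n)) := fun Q _ _ => (hq Q).1
  have h2 : QLe (FreeGroup (Fin n)) Λ := fun Q _ _ => (hq Q).2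
  obtain ⟨e⟩ := rigid_mixed n (Fin n) (fun _ => Multiplicative ℤ)
    (fun _ => Or.inr ⟨MulEquiv.refl _⟩) (Fintype.card_fin n) (by
      refine le_trans (Fintype.card_le_of_injective
        (fun j : {j : Fin n // ¬ Finite (Multiplicative ℤ)} => j.1) Subtype.val_injective) ?_
      rw [Fintype.card_fin]
      exact hn) (by
      intro κ' _ f hf hc B _ hB hBrf h4 h5
      obtain ⟨em⟩ := hfree κ'
      have hle : Fintype.card κ' ≤ n := by
        have := Fintype.card_le_of_injective f hf
        rwa [Fintype.card_fin] at this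
      exact H (Fintype.card κ') hc hle B hB hBrf fun Q _ _ =>
        ⟨(h4.trans (QLe.of_equiv em)) Q, ((QLe.of_equiv em.symm).trans h5) Q⟩) Λ hΛ hrf
      (h1.trans (QLe.of_equiv en.symm)) ((QLe.of_equiv en).trans h2)
  exact ⟨e.trans en⟩

end Pool.Agent.Results.MP_305fdd_al.FreeDecompositions
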