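import Pool.Agent.V8H72.TA.C6

/-!
# The Tits alternative for profinite completions and for the genus

Let `Γ` be a finitely generated group with a normal subgroup `F` of finite index and a homomorphism
`χ` from `F` to the integers with a finitely generated kernel which is free or a surface group of
genus at least two. All lattices in `PSL (2, ℝ)` (with `χ = 1`) and, by the virtual fibering theorem,
all lattices in `PSL (2, ℂ)` are of this kind.

The theorem is the Tits alternative for the profinite completion of `Γ` as an abstract group: every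
subgroup, closed or not, contains a nonabelian free group or is virtually solvable. The same holds
for every finitely generated residually finite group with the same finite quotients as `Γ`.
-/

namespace Pool.Agent.Results.MP_305fdd_al.TitsAlternative

open Pool.Agent.V8H72.TA

open ProfiniteGrp.ProfiniteCompletion in
theorem result (Γ : Type) [Group Γ] (hΓ : Group.FG Γ) (F : Subgroup Γ) [F.Normal] [F.FiniteIndex]
    (χ : F →* Multiplicative ℤ) (hfg : Group.FG χ.ker)
    (hfib : IsFreeGroup χ.ker ∨ ∃ g : ℕ, 2 ≤ g ∧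
      Nonempty (χ.ker ≃* PresentedGroup ({(List.ofFn fun i : Fin g =>
        FreeGroup.of (i, (0 : Fin 2)) * FreeGroup.of (i, (1 : Fin 2)) *
          (FreeGroup.of (i, (0 : Fin 2)))⁻¹ * (FreeGroup.of (i, (1 : Fin 2)))⁻¹).prod} :
        Set (FreeGroup (Fin g × Fin 2))))) :
    (∃ (U : Subgroup (completion (GrpCat.of Γ))) (_ : U.Normal),
      IsOpen (U : Set (completion (GrpCat.of Γ))) ∧
      Nonempty (completion (GrpCat.of Γ) ⧸ U ≃* Γ ⧸ F) ∧
      ∀ H : Subgroup (completion (GrpCat.of Γ)),
        (∃ φ : FreeGroup (Fin 2) →* H, Function.Injective φ) ∨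
          (derivedSeries ↥(H ⊓ U) 3 = ⊥ ∧ (χ = 1 → derivedSeries ↥(H ⊓ U) 2 = ⊥))) ∧
    (∀ (Λ : Type) [Group Λ], Group.FG Λ →
      (∀ x : Λ, x ≠ 1 → ∃ (Q : Type) (_ : Group Q) (_ : Finite Q) (φ : Λ →* Q), φ x ≠ 1) →
      (∀ (Q : Type) [Group Q] [Finite Q],
        (∃ φ : Λ →* Q, Function.Surjective φ) ↔ (∃ φ : Γ →* Q, Function.Surjective φ)) →
      ∃ (L : Subgroup Λ) (_ : L.Normal), Nonempty (Λ ⧸ L ≃* Γ ⧸ F) ∧
        ∀ H : Subgroup Λ, (∃ φ : FreeGroup (Fin 2) →* H, Function.Injective φ) ∨
          derivedSeries ↥(H ⊓ L) 3 = ⊥) := by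
  refine ⟨?_, ?_⟩
  · let F' : FiniteIndexNormalSubgroup Γ :=
      { toSubgroup := F, isNormal' := inferInstance, isFiniteIndex' := inferInstance }
    refine ⟨((compSys Γ).p F').ker, inferInstance, isOpen_ker Γ F',
      ⟨QuotientGroup.quotientKerEquivOfSurjective _ ((compSys Γ).surj F')⟩, fun H => ?_⟩
    exact tits_sys (compSys Γ) hΓ F' χ hfg hfib H
  · intro Λ _ hΛ hrf hq
    obtain ⟨L, hL, he, hD⟩ := main_fibred Γ Λ hΓ hΛ hq F inferInstance χ hfg hfib
    exact ⟨L, hL, he, fun H => titsD hrf (hD 2 (by omega)) H⟩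

end Pool.Agent.Results.MP_305fdd_al.TitsAlternative
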